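import Mathlib

/-!
# EF1, Pareto optimality and balancedness are not always compatible

Two agents and eight goods with the strictly positive utilities

  agent 0:  83 26 40 25 81 51 26 58
  agent 1:  65  4  6  3 68 43  9 24

There is no balanced allocation (four goods for each agent) that is EF1 and Pareto optimal. This
answers Q2 in the negative, and Q1 as well, with the constant reference valuation.
-/

set_option autoImplicit false
set_option maxRecDepth 100000

open Finset

namespace Pool.Agent.Results.MP_e74e46_co.NoBalancedFairEfficient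

/-- The bundle of agent `i` in the allocation `A` (good `g` goes to agent `A g`). -/
def bundle {n m : ℕ} (A : Fin m → Fin n) (i : Fin n) : Finset (Fin m) :=
  univ.filter fun g => A g = i

/-- The value of the set `S` of goods for the additive valuation with the values `w` of the goods. -/
def val {m : ℕ} (w : Fin m → ℝ) (S : Finset (Fin m)) : ℝ := ∑ g ∈ S, w g

/-- `A` is EF1 with respect to the profile `w`. -/
def EF1 {n m : ℕ} (w : Fin n → Fin m → ℝ) (A : Fin m → Fin n) : Prop :=
  ∀ i j, bundle A j = ∅ ∨ ∃ g ∈ bundle A j, val (w i) ((bundle A j).erase g) ≤ val (w i) (bundle A i)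

/-- `A` is Pareto optimal with respect to `u`. -/
def PO {n m : ℕ} (u : Fin n → Fin m → ℝ) (A : Fin m → Fin n) : Prop :=
  ¬ ∃ B : Fin m → Fin n, (∀ i, val (u i) (bundle A i) ≤ val (u i) (bundle B i)) ∧
    ∃ i, val (u i) (bundle A i) < val (u i) (bundle B i)

/-- `A` is balanced: all bundles have `⌊m / n⌋` or `⌈m / n⌉` goods. -/
def Balanced {n m : ℕ} (A : Fin m → Fin n) : Prop :=
  ∀ i, (bundle A i).card = m / n ∨ (bundle A i).card = (m + n - 1) / n

/-- The integral utilities of the instance. -/
def uN (i : Fin 2) (g : Fin 8) : ℕ :=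
  (if i = 0 then ![83, 26, 40, 25, 81, 51, 26, 58] else ![65, 4, 6, 3, 68, 43, 9, 24]) g

/-- Integral values of sets of goods. -/
def valN (i : Fin 2) (S : Finset (Fin 8)) : ℕ := ∑ g ∈ S, uN i g

/-- The integral form of the statement for one allocation. -/
def Checked (A : Fin 8 → Fin 2) : Prop :=
  (bundle A 0).card = 4 →
  (∀ i j : Fin 2, i ≠ j →
    ∃ g ∈ bundle A j, valN i ((bundle A j).erase g) ≤ valN i (bundle A i)) →
  ∃ B : Fin 8 → Fin 2, (∀ i, valN i (bundle A i) ≤ valN i (bundle B i)) ∧
    ∃ i, valN i (bundle A i) < valN i (bundle B i)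

instance (A : Fin 8 → Fin 2) : Decidable (Checked A) := by unfold Checked; infer_instance

lemma checked : ∀ A, Checked A := by decide +kernel

lemma val_cast (i : Fin 2) (S : Finset (Fin 8)) :
    val (fun g => (uN i g : ℝ)) S = (valN i S : ℝ) := by
  unfold val valN
  push_cast
  rfl

lemma uN_pos : ∀ i g, 0 < uN i g := by decide

lemma card_two (A : Fin 8 → Fin 2) : (bundle A 0).card + (bundle A 1).card = 8 := by
  have h : (univ : Finset (Fin 8)).card = ∑ j, (bundle A j).card := by
    apply card_eq_sum_card_fiberwise
    intro g _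
    simp
  rw [Fin.sum_univ_two, card_univ, Fintype.card_fin] at h
  exact h.symm

/-- No EF1 and Pareto optimal allocation of the instance gives four goods to agent `0`. -/
lemma main (A : Fin 8 → Fin 2) (h4 : (bundle A 0).card = 4)
    (hEF : EF1 (fun i g => (uN i g : ℝ)) A) (hPO : PO (fun i g => (uN i g : ℝ)) A) : False := by
  have h4' : (bundle A 1).card = 4 := by
    have := card_two A
    omega
  have hcard : ∀ j, (bundle A j).card = 4 := by
    intro j
    fin_cases j
    · exact h4
    · exact h4'
  obtain ⟨B, hB1, hB2⟩ := checked A h4 (fun i j _ => by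
    rcases hEF i j with h | ⟨g, hg, h⟩
    · have := hcard j
      rw [h] at this
      simp at this
    · refine ⟨g, hg, ?_⟩
      rw [val_cast, val_cast] at h
      exact_mod_cast h)
  refine hPO ⟨B, fun i => ?_, ?_⟩
  · rw [val_cast, val_cast]
    exact_mod_cast hB1 i
  · obtain ⟨i, hi⟩ := hB2
    refine ⟨i, ?_⟩
    rw [val_cast, val_cast]
    exact_mod_cast hi

lemma val_one (S : Finset (Fin 8)) : val (fun _ => (1 : ℝ)) S = S.card := by
  unfold val
  simp

/-- **EF1, Pareto optimality and balancedness.** There is an instance with two agents and eight goods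
with strictly positive subjective utilities `u` such that
(Q2) no allocation is EF1 and PO with respect to `u` and balanced, and
(Q1) no allocation is EF1 and PO with respect to `u` and EF1 with respect to the reference valuation
`v` which is `1` on every good. -/
theorem result : ∃ u : Fin 2 → Fin 8 → ℝ, (∀ i g, 0 < u i g) ∧
    (∀ A : Fin 8 → Fin 2, ¬ (EF1 u A ∧ PO u A ∧ Balanced A)) ∧
    (∀ A : Fin 8 → Fin 2, ¬ (EF1 u A ∧ PO u A ∧ EF1 (fun _ _ => (1 : ℝ)) A)) := by
  refine ⟨fun i g => (uN i g : ℝ), fun i g => Nat.cast_pos.2 (uN_pos i g), ?_, ?_⟩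
  · rintro A ⟨h1, h2, h3⟩
    refine main A ?_ h1 h2
    rcases h3 0 with h | h
    · rw [h]
    · rw [h]
  · rintro A ⟨h1, h2, h3⟩
    refine main A ?_ h1 h2
    have hc := card_two A
    have key : ∀ i j, (bundle A j).card ≤ (bundle A i).card + 1 := by
      intro i j
      rcases h3 i j with h | ⟨g, hg, h⟩
      · rw [h]; simp
      · have h' : val (fun _ => (1 : ℝ)) ((bundle A j).erase g) ≤
            val (fun _ => (1 : ℝ)) (bundle A i) := h
        rw [val_one, val_one, card_erase_of_mem hg] at h'
        have h5 : (bundle A j).card - 1 ≤ (bundle A i).card := by exact_mod_cast h'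
        omega
    have k1 := key 0 1
    have k2 := key 1 0
    omega

end Pool.Agent.Results.MP_e74e46_co.NoBalancedFairEfficient
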